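import Mathlib

set_option autoImplicit false

open Nat

namespace Pool.Agent.Results.MP_71df81_al.AllValues

/-- `P(g_1, …, g_n)`: the set of products `g_{σ(1)} ⋯ g_{σ(n)}`, `σ ∈ S_n`. -/
def Products {G : Type} [Group G] {n : ℕ} (g : Fin n → G) : Set G :=
  Set.range fun σ : Equiv.Perm (Fin n) => (List.ofFn fun i => g (σ i)).prod

/-- Proof device: the weight of an inversion. -/
def c (a b : ℕ) : ℕ := if b < a then a ! else 0

/-- Proof device: the bilinear cocycle. -/
def β (n k : ℕ) (u v : ℕ → ℤ) : ZMod k :=
  ∑ a ∈ Finset.range n, ∑ b ∈ Finset.range n, (u a : ZMod k) * c a b * v b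

theorem β_add_left (n k : ℕ) (u u' v : ℕ → ℤ) : β n k (u + u') v = β n k u v + β n k u' v := by
  simp [β, add_mul, Finset.sum_add_distrib]

theorem β_add_right (n k : ℕ) (u v v' : ℕ → ℤ) : β n k u (v + v') = β n k u v + β n k u v' := by
  simp [β, mul_add, Finset.sum_add_distrib]

theorem β_neg_left (n k : ℕ) (u v : ℕ → ℤ) : β n k (-u) v = -β n k u v := by
  simp [β]

theorem β_single (n k : ℕ) (a b : ℕ) (ha : a < n) (hb : b < n) :
    β n k (Pi.single a 1) (Pi.single b 1) = c a b := by
  simp [β, Pi.single_apply, ha, hb]

/-- Proof device: a nilpotent group of class two. -/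
@[ext] structure H (n k : ℕ) : Type where
  u : ℕ → ℤ
  s : ZMod k

instance (n k : ℕ) : Mul (H n k) := ⟨fun x y => ⟨x.u + y.u, x.s + y.s + β n k x.u y.u⟩⟩
instance (n k : ℕ) : One (H n k) := ⟨⟨0, 0⟩⟩
instance (n k : ℕ) : Inv (H n k) := ⟨fun x => ⟨-x.u, β n k x.u x.u - x.s⟩⟩

theorem mul_def {n k : ℕ} (x y : H n k) : x * y = ⟨x.u + y.u, x.s + y.s + β n k x.u y.u⟩ := rfl
theorem one_def {n k : ℕ} : (1 : H n k) = ⟨0, 0⟩ := rfl
theorem inv_def {n k : ℕ} (x : H n k) : x⁻¹ = ⟨-x.u, β n k x.u x.u - x.s⟩ := rfl

instance (n k : ℕ) : Group (H n k) := Group.ofLeftAxioms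
  (fun x y z => by
    ext1
    · simp [mul_def, add_assoc]
    · simp only [mul_def, β_add_left, β_add_right]; ring)
  (fun x => by ext1 <;> simp [mul_def, one_def, β])
  (fun x => by ext1 <;> simp [mul_def, one_def, inv_def, β_neg_left])

/-- Proof device: the total weight of the inversions of a list. -/
def w : List ℕ → ℕ
  | [] => 0
  | a :: l => (l.map (c a)).sum + w l

theorem w_insert (n : ℕ) (l₁ l₂ : List ℕ) (h : ∀ a ∈ l₁ ++ l₂, a < n) :
    w (l₁ ++ n :: l₂) = w (l₁ ++ l₂) + l₂.length * n ! := by
  induction l₁ with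
  | nil =>
    have : l₂.map (c n) = l₂.map fun _ => n ! :=
      List.map_congr_left fun a ha => by simp [c, h a (by simpa using ha)]
    simp [w, this, add_comm]
  | cons a l ih =>
    have h1 : c a n = 0 := by
      have := h a (by simp)
      simp [c]; omega
    simp only [List.cons_append, w, List.map_append, List.map_cons, List.sum_append, List.sum_cons,
      h1, ih fun b hb => h b (by simp at hb ⊢; tauto)]
    ring

theorem surj (n : ℕ) : ∀ m < n !, ∃ l : List ℕ, l.Perm (List.range n) ∧ w l = m := by
  induction n with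
  | zero => exact fun m hm => ⟨[], by simp, by simp at hm; simp [w, hm]⟩
  | succ n ih =>
    intro m hm
    obtain ⟨l, hl, hw⟩ := ih (m % n !) (Nat.mod_lt _ n.factorial_pos)
    have hq : m / n ! < n + 1 := Nat.div_lt_of_lt_mul (by rwa [Nat.factorial_succ, mul_comm] at hm)
    have hlen : l.length = n := by simpa using hl.length_eq
    refine ⟨l.take (n - m / n !) ++ n :: l.drop (n - m / n !), ?_, ?_⟩
    · refine List.perm_middle.trans ?_
      rw [List.take_append_drop, List.range_succ]
      exact (hl.cons n).trans (List.perm_append_singleton _ _).symm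
    · rw [w_insert, List.take_append_drop, hw, List.length_drop, hlen,
        Nat.sub_sub_self (Nat.le_of_lt_succ hq)]
      · exact Nat.mod_add_div' _ _
      · rw [List.take_append_drop]
        exact fun a ha => List.mem_range.1 (hl.subset ha)

/-- Proof device: the generators. -/
def gen (n k : ℕ) (a : ℕ) : H n k := ⟨Pi.single a 1, 0⟩

theorem prod_eq (n k : ℕ) (l : List ℕ) (h : ∀ a ∈ l, a < n) :
    (l.map (gen n k)).prod = ⟨(l.map fun a => Pi.single a 1).sum, w l⟩ := by
  induction l with
  | nil => simp [one_def, w]
  | cons a l ih =>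
    have h1 : ∀ l' : List ℕ, (∀ b ∈ l', b < n) → β n k (Pi.single a 1)
        (l'.map fun b => Pi.single b 1).sum = ((l'.map (c a)).sum : ℕ) := by
      intro l' h'
      induction l' with
      | nil => simp [β]
      | cons b l' ih' =>
        rw [List.map_cons, List.sum_cons, β_add_right, ih' fun x hx => h' x (by simp [hx]),
          β_single _ _ _ _ (h a (by simp)) (h' b (by simp))]
        simp
    rw [List.map_cons, List.prod_cons, ih fun b hb => h b (by simp [hb]), mul_def]
    ext1
    · simp [gen]
    · simp only [gen, h1 l fun b hb => h b (by simp [hb]), w]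
      push_cast; ring

theorem result (n k : ℕ) (h1 : 1 ≤ k) (h2 : k ≤ n !) :
    ∃ (G : Type) (_ : Group G) (g : Fin n → G),
      Function.Injective g ∧ (Products g).Finite ∧ (Products g).ncard = k := by
  refine ⟨H n k, inferInstance, fun i => gen n k i, fun i j h => ?_, Set.finite_range _, ?_⟩
  · have := congrFun (congrArg H.u h) i
    by_contra h'
    simp [gen, Fin.val_inj, h'] at this
  · have : NeZero k := ⟨by omega⟩
    have hr : List.ofFn (fun i : Fin n => i.1) = List.range n := by
      apply List.ext_getElem <;> simp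
    have key : Products (fun i : Fin n => gen n k i) = Set.range fun s : ZMod k =>
        (⟨((List.range n).map fun a => Pi.single a 1).sum, s⟩ : H n k) := by
      ext x
      constructor
      · rintro ⟨σ, rfl⟩
        have hp : (List.ofFn fun i => (σ i).1).Perm (List.range n) :=
          hr ▸ Equiv.Perm.ofFn_comp_perm σ fun i : Fin n => i.1
        have := prod_eq n k _ fun a ha => List.mem_range.1 (hp.subset ha)
        rw [List.map_ofFn, (hp.map _).sum_eq] at this
        exact ⟨_, this.symm⟩
      · rintro ⟨s, rfl⟩
        obtain ⟨l, hl, hw⟩ := surj n s.val ((ZMod.val_lt s).trans_le h2)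
        have hlen : l.length = n := by simpa using hl.length_eq
        subst hlen
        have hlt : ∀ a ∈ l, a < l.length := fun a ha => List.mem_range.1 (hl.subset ha)
        let f : Fin l.length → Fin l.length := fun i => ⟨l.get i, hlt _ (List.get_mem _ _)⟩
        have hf : Function.Injective f := fun i j h =>
          (List.nodup_iff_injective_get.1 (hl.nodup_iff.2 List.nodup_range)) (congrArg Fin.val h)
        refine ⟨Equiv.ofBijective f (Finite.injective_iff_bijective.1 hf), ?_⟩
        have := prod_eq l.length k l hlt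
        rw [(hl.map _).sum_eq, hw, ZMod.natCast_zmod_val] at this
        refine Eq.trans ?_ this
        change (List.ofFn fun i => gen l.length k (l.get i)).prod = _
        congr 1
        apply List.ext_getElem <;> simp
    rw [key, ← Set.image_univ, Set.ncard_image_of_injective _ fun s t h => congrArg H.s h,
      Set.ncard_univ, Nat.card_zmod]

end Pool.Agent.Results.MP_71df81_al.AllValues
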